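import Pool.Agent.L7h3.QE.Lf

/-!
# The criterion in elementary terms
-/

set_option autoImplicit false
set_option linter.unusedSectionVars false

namespace Pool.Agent.L7h3.QE

open scoped Classical
open Finset
open Pool.Agent.L7h3.GX (Sol Gd ClsG good4_of good4_to nrm_int cls_norm)
open Pool.Agent.Y699
open H385 (ZI RQ im1 nrm)
open Pool.Agent.W164.RC (two2 prim_iff_dvd)
open Pool.Agent.H304R2.EC.A1 (prim prim_mul prim_cancel prim_one prim_norm_odd prim_star eq_one_of_prim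
  norm_def' re_mul' im_mul' eq_of_dvd prim_ne_zero exists_prim)

/-- the class -/
def Cls (D : ZI) : Prop := Squarefree D ∧ two2 ∣ D - 1 ∧ D.norm % 16 = 13

/-- the criterion, elementary form -/
def GoodE (D : ZI) : Prop := Cls D ∧ ∀ d d' : ZI, D = d * d' → two2 ∣ d - 1 →
  (∀ π : ZI, Prime π → π ∣ d → ∃ x : ZI, π ∣ x ^ 2 - d') →
  (∀ π : ZI, Prime π → π ∣ d' → ∃ x : ZI, π ∣ x ^ 2 - d) → d = 1 ∨ d' = 1

lemma cls_iff {D : ZI} : Cls D ↔ ClsG D := by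
  constructor
  · rintro ⟨h1, h2, h3⟩
    exact ⟨⟨(prim_iff_dvd D).2 h2, h1⟩, cls_norm.2 h3⟩
  · rintro ⟨h1, h2⟩
    exact ⟨h1.sqf, (prim_iff_dvd D).1 h1.prm, cls_norm.1 h2⟩

lemma sqf_nd {D d d' π : ZI} (hD : Squarefree D) (h : D = d * d') (hπ : Prime π) (h1 : π ∣ d) :
    ¬ π ∣ d' := by
  intro h2
  exact hπ.not_isUnit (hD π (by rw [h]; exact mul_dvd_mul h1 h2))

/-- the conditions for all the primes and for the primary primes -/
lemma cond_iff {d d' : ZI} (hd : PS d) (hnd : ∀ π, Prime π → π ∣ d → ¬ π ∣ d') :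
    (∀ π : ZI, Prime π → π ∣ d → ∃ x : ZI, π ∣ x ^ 2 - d') ↔ ∀ π ∈ PD d, qr π d' = 1 := by
  constructor
  · intro h π hπ
    obtain ⟨h1, h2⟩ := (mem_PD hd.ne).1 hπ
    obtain ⟨x, hx⟩ := h π h1.pr h2
    unfold qr
    rw [if_neg (hnd π h1.pr h2), if_pos]
    refine ⟨x, ?_⟩
    have e : d' - x ^ 2 = -(x ^ 2 - d') := by ring
    rw [e]
    exact (dvd_neg).2 hx
  · intro h π hπ hπd
    obtain ⟨π', h1, h2⟩ := exists_PP hπ (odd_of_dvd hπd (prim_norm_odd hd.prm))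
    have h3 : π' ∈ PD d := (mem_PD hd.ne).2 ⟨h1, h2.dvd.trans hπd⟩
    have h4 := h π' h3
    unfold qr at h4
    rw [if_neg (fun h5 => hnd π hπ hπd (h2.symm.dvd.trans h5))] at h4
    split_ifs at h4 with h5
    · obtain ⟨x, hx⟩ := h5
      refine ⟨x, h2.symm.dvd.trans ?_⟩
      have e : x ^ 2 - d' = -(d' - x ^ 2) := by ring
      rw [e]
      exact (dvd_neg).2 hx

theorem goodE_iff {D : ZI} : GoodE D ↔ Good4 D := by
  have key : Cls D → ∀ d d' : ZI, prim d → prim d' → D = d * d' →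
      PS d ∧ PS d' ∧ (∀ π, Prime π → π ∣ d → ¬ π ∣ d') ∧ (∀ π, Prime π → π ∣ d' → ¬ π ∣ d) := by
    intro hc d d' h1 h2 h3
    have hps := (cls_iff.1 hc).1
    refine ⟨hps.of_dvd h1 ⟨d', h3⟩, hps.of_dvd h2 ⟨d, by rw [h3]; ring⟩, fun π hπ h4 =>
      sqf_nd hc.1 h3 hπ h4, fun π hπ h4 => sqf_nd hc.1 (by rw [h3]; ring) hπ h4⟩
  constructor
  · rintro ⟨hc, hk⟩
    have hps := (cls_iff.1 hc).1
    refine ⟨hps, hc.2.2, fun d d' h1 h2 h3 h4 h5 => ?_⟩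
    obtain ⟨a1, a2, a3, a4⟩ := key hc d d' h1 h2 h3
    exact hk d d' h3 ((prim_iff_dvd d).1 h1) ((cond_iff a1 a3).2 h4) ((cond_iff a2 a4).2 h5)
  · intro h
    have hc : Cls D := cls_iff.2 (good4_to h).1
    refine ⟨hc, fun d d' h3 h1 h4 h5 => ?_⟩
    have p1 : prim d := (prim_iff_dvd d).2 h1
    have p2 : prim d' := prim_cancel p1 (by rw [← h3]; exact h.ps.prm)
    obtain ⟨a1, a2, a3, a4⟩ := key hc d d' p1 p2 h3
    exact h.ker d d' p1 p2 h3 ((cond_iff a1 a3).1 h4) ((cond_iff a2 a4).1 h5)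

end Pool.Agent.L7h3.QE
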