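import Pool.Agent.L7h3.QE.Fr
import Pool.Agent.L7h3.GX.Cond

/-!
# Towers with fourth roots: there are infinitely many
-/

set_option autoImplicit false
set_option linter.unusedSectionVars false

open NumberField IsDedekindDomain

namespace Pool.Agent.L7h3.QE

open scoped Classical
open Finset
open Pool.Agent.L7h3.MQ
open Pool.Agent.L7h3.MR
open Pool.Agent.L7h3.GX (Sol Gd ClsG good4_of good4_to nrm_int cls_norm)
open Pool.Agent.Y699
open H385 (ZI RQ im1 nrm)
open Pool.Agent.H304R2.EC.A1 (prim prim_mul prim_cancel prim_one prim_norm_odd prim_star eq_one_of_prim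
  norm_def' re_mul' im_mul' eq_of_dvd prim_ne_zero exists_prim)

lemma PP_star {π : ZI} (h : PP π) : PP (star π) := by
  refine ⟨?_, prim_star h.prm⟩
  exact (MulEquiv.prime_iff (starMulAut (R := ZI))).2 h.pr

/-- two primary primes of the same prime norm are equal or conjugate -/
lemma eq_or_star {π π' : ZI} (h : PP π) (h' : PP π') (hn : π'.norm = π.norm) :
    π' = π ∨ π' = star π := by
  have h1 : π' ∣ π * star π := by
    rw [← Zsqrtd.norm_eq_mul_conj, ← hn, Zsqrtd.norm_eq_mul_conj]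
    exact dvd_mul_right _ _
  rcases h'.pr.dvd_or_dvd h1 with h2 | h2
  · exact Or.inl (h'.eq_of_dvd h h2)
  · exact Or.inr (h'.eq_of_dvd (PP_star h) h2)

/-- there is a prime divisor whose conjugate does not divide -/
lemma exists_leaf {D : ZI} (h : PS D) (h5 : D.norm % 8 = 5) :
    ∃ π₁ ∈ PD D, π₁.norm % 8 = 5 ∧ ∀ π ∈ PD D, π ≠ π₁ → π.norm ≠ π₁.norm := by
  by_contra hcon
  push Not at hcon
  have h1 := wt_sum h h5
  have h2 : ∑ i : {π : ZI // π ∈ PD D}, wt (fam D) i =
      ∑ π ∈ PD D, (if π.norm % 8 = 5 then (1 : ZMod 2) else 0) :=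
    Finset.sum_coe_sort (PD D) (fun π => (if π.norm % 8 = 5 then (1 : ZMod 2) else 0))
  rw [h2] at h1
  have hst : ∀ π ∈ PD D, π.norm % 8 = 5 → star π ∈ PD D ∧ star π ≠ π := by
    intro π hπ h5
    obtain ⟨π', h3, h4, h6⟩ := hcon π hπ h5
    rcases eq_or_star ((mem_PD h.ne).1 hπ).1 ((mem_PD h.ne).1 h3).1 h6 with h7 | h7
    · exact absurd h7 h4
    · rw [h7] at h3 h4
      exact ⟨h3, h4⟩
  have hns : ∀ π : ZI, (star π).norm = π.norm := fun π => Zsqrtd.norm_conj π
  have h3 : ∑ π ∈ PD D, (if π.norm % 8 = 5 then (1 : ZMod 2) else 0) = 0 := by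
    refine Finset.sum_involution (fun π _ => if π.norm % 8 = 5 then star π else π) ?_ ?_ ?_ ?_
    · intro π hπ
      by_cases h8 : π.norm % 8 = 5
      · simp only [h8, if_true, hns]
        decide
      · simp only [h8, if_false]
        decide
    · intro π hπ hne
      by_cases h8 : π.norm % 8 = 5
      · simp only [h8, if_true]
        exact (hst π hπ h8).2
      · simp only [h8, if_false, ne_eq, not_true] at hne
    · intro π hπ
      by_cases h8 : π.norm % 8 = 5
      · simp only [h8, if_true]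
        exact (hst π hπ h8).1
      · simp only [h8, if_false]
        exact hπ
    · intro π hπ
      by_cases h8 : π.norm % 8 = 5
      · simp only [h8, if_true, hns, star_star]
      · simp only [h8, if_false]
  rw [h3] at h1
  exact zero_ne_one h1

/-- the primes of the leaves -/
structure Leaf (D π₁ ρ : ZI) : Prop where
  ex : ∃ q : ℕ, q.Prime ∧ q % 8 = 7 ∧ ρ = -(q : ZI)
  sy : ∀ π ∈ PD D, qr ρ π = if π = π₁ then -1 else 1

lemma Leaf.pp {D π₁ ρ : ZI} (h : Leaf D π₁ ρ) : PP ρ := by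
  obtain ⟨q, hq, h8, rfl⟩ := h.ex
  have hqp := Fact.mk hq
  have hprime : Prime (q : ZI) :=
    GaussianInt.prime_of_nat_prime_of_mod_four_eq_three q (by omega)
  refine ⟨hprime.neg, ?_⟩
  refine (one_mod_four ?_).1
  obtain ⟨k, hk⟩ : ∃ k, q = 8 * k + 7 := ⟨q / 8, by omega⟩
  refine ⟨-(2 * (k : ZI)) - 2, ?_⟩
  rw [hk]
  push_cast
  ring

/-- there are infinitely many primes of the leaves -/
theorem inf_leaf {D π₁ : ZI} (h : PS D) (h1 : π₁ ∈ PD D) (h5 : π₁.norm % 8 = 5)
    (hu : ∀ π ∈ PD D, π ≠ π₁ → π.norm ≠ π₁.norm) : {ρ : ZI | Leaf D π₁ ρ}.Infinite := by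
  have hPP : ∀ π ∈ PD D, PP π := fun π hπ => ((mem_PD h.ne).1 hπ).1
  -- the rational prime under `π₁`
  obtain ⟨p, hp, hp4, hpn⟩ : ∃ p : ℕ, p.Prime ∧ p % 4 = 1 ∧ π₁.norm = p := by
    rcases (hPP π₁ h1).cases with ⟨p, hp, hp4, hpn⟩ | ⟨q, hq, hq4, hqn⟩
    · exact ⟨p, hp, hp4, hpn⟩
    · exfalso
      rw [hqn, Zsqrtd.norm_neg, norm_def'] at h5
      simp only [Zsqrtd.re_natCast, Zsqrtd.im_natCast] at h5
      obtain ⟨k, hk⟩ : ∃ k, q = 4 * k + 3 := ⟨q / 4, by omega⟩
      rw [hk] at h5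
      push_cast at h5
      ring_nf at h5
      omega
  have hp8 : p % 8 = 5 := by rw [hpn] at h5; omega
  set m : ℕ := ∏ π ∈ (PD D).erase π₁, nrm π with hm
  have hnp : ∀ π ∈ (PD D).erase π₁, Nat.Coprime (nrm π) p ∧ nrm π % 2 = 1 := by
    intro π hπ
    obtain ⟨hne, hπD⟩ := Finset.mem_erase.1 hπ
    have h7 := nrm_int π
    rcases (hPP π hπD).cases with ⟨p', hp', hp4', hpn'⟩ | ⟨q, hq, hq4, hqn⟩
    · have e1 : nrm π = p' := by rw [hpn'] at h7; exact_mod_cast h7
      rw [e1]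
      refine ⟨(Nat.coprime_primes hp' hp).2 ?_, by omega⟩
      rintro rfl
      exact hu π hπD hne (hpn'.trans hpn.symm)
    · have e1 : nrm π = q * q := by
        rw [hqn, Zsqrtd.norm_neg, norm_def'] at h7
        simp only [Zsqrtd.re_natCast, Zsqrtd.im_natCast] at h7
        have h8 : ((nrm (-(q : ZI)) : ℕ) : ℤ) = ((q * q : ℕ) : ℤ) := by
          rw [h7]; push_cast; ring
        rw [hqn]
        exact_mod_cast h8
      rw [e1]
      have hqp : Nat.Coprime q p := by
        refine (Nat.coprime_primes hq hp).2 ?_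
        rintro rfl
        omega
      refine ⟨Nat.Coprime.mul_left hqp hqp, ?_⟩
      rw [Nat.mul_mod]
      have : q % 2 = 1 := by omega
      rw [this]
  have hmp : Nat.Coprime m p := Nat.Coprime.prod_left fun π hπ => (hnp π hπ).1
  have hm2 : m % 2 = 1 := by
    have : Odd m := by
      rw [hm]
      exact Finset.prod_induction (fun π => nrm π) Odd (fun a b ha hb => ha.mul hb) odd_one
        (fun π hπ => Nat.odd_iff.2 (hnp π hπ).2)
    exact Nat.odd_iff.1 this
  have hmp8 : Nat.Coprime (m * p) 8 := by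
    have : Odd (m * p) := (Nat.odd_iff.2 hm2).mul (Nat.odd_iff.2 (by omega))
    have h2 : Nat.Coprime (m * p) 2 := (Nat.coprime_two_right).2 this
    exact Nat.Coprime.pow_right 3 h2
  obtain ⟨a, ha1, ha2⟩ := Nat.chineseRemainder hmp 1 2
  obtain ⟨b, hb1, hb2⟩ := Nat.chineseRemainder hmp8 a 7
  have hbm : b ≡ 1 [MOD m] := (hb1.of_mul_right p).trans ha1
  have hbp : b ≡ 2 [MOD p] := (hb1.of_mul_left m).trans ha2
  have hbcop : Nat.Coprime b (m * p * 8) := by
    refine Nat.Coprime.mul_right (Nat.Coprime.mul_right ?_ ?_) ?_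
    · have h2 := hbm.gcd_eq
      rw [Nat.gcd_one_left] at h2
      exact h2
    · have h2 := hbp.gcd_eq
      rw [Nat.Coprime, h2]
      exact (Nat.coprime_two_left).2 (Nat.odd_iff.2 (by omega))
    · have h2 := hb2.gcd_eq
      rw [Nat.Coprime, h2]
      decide
  have hm0 : 0 < m := by omega
  have hM0 : m * p * 8 ≠ 0 := by
    have := hp.pos
    positivity
  have : NeZero (m * p * 8) := ⟨hM0⟩
  have hinf := Nat.infinite_setOf_prime_and_eq_mod (q := m * p * 8) (a := (b : ZMod (m * p * 8)))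
    ((ZMod.isUnit_iff_coprime b (m * p * 8)).2 hbcop)
  have hinj : Set.InjOn (fun q : ℕ => (-(q : ZI)))
      {q : ℕ | q.Prime ∧ (q : ZMod (m * p * 8)) = (b : ZMod (m * p * 8))} := by
    intro p _ q _ hpq
    have h1 : (p : ZI) = (q : ZI) := neg_injective hpq
    exact_mod_cast h1
  refine (hinf.image hinj).mono ?_
  rintro _ ⟨q, ⟨hq, hqa⟩, rfl⟩
  rw [ZMod.natCast_eq_natCast_iff] at hqa
  have hqm : q ≡ 1 [MOD m] := ((hqa.of_mul_right 8).of_mul_right p).trans hbm
  have hqp : q ≡ 2 [MOD p] := ((hqa.of_mul_right 8).of_mul_left m).trans hbp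
  have hq8 : q ≡ 7 [MOD 8] := (hqa.of_mul_left (m * p)).trans hb2
  have hq8' : q % 8 = 7 := hq8
  have hfq := Fact.mk hq
  have hprime : Prime (q : ZI) :=
    GaussianInt.prime_of_nat_prime_of_mod_four_eq_three q (by omega)
  have hPPq : PP (-(q : ZI)) := by
    refine ⟨hprime.neg, (one_mod_four ?_).1⟩
    obtain ⟨k, hk⟩ : ∃ k, q = 8 * k + 7 := ⟨q / 8, by omega⟩
    refine ⟨-(2 * (k : ZI)) - 2, ?_⟩
    rw [hk]
    push_cast
    ring
  refine ⟨⟨q, hq, hq8', rfl⟩, fun π hπ => ?_⟩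
  rw [qr_inert hPPq (by omega) rfl]
  by_cases hππ : π = π₁
  · rw [if_pos hππ, hππ, hpn, jacobiSym.legendreSym.to_jacobiSym,
      jacobiSym.quadratic_reciprocity_one_mod_four hp4 (Nat.odd_iff.2 (by omega))]
    have hpo : Odd p := Nat.odd_iff.2 (by omega)
    have h9 : jacobiSym (q : ℤ) p = jacobiSym 2 p := by
      rw [jacobiSym.mod_left (q : ℤ) p, jacobiSym.mod_left 2 p]
      congr 1
      have h10 : (q : ℤ) ≡ ((2 : ℕ) : ℤ) [ZMOD (p : ℤ)] := (Int.natCast_modEq_iff).2 hqp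
      exact h10
    rw [h9, jacobiSym.at_two hpo, ZMod.χ₈_nat_mod_eight, hp8]
    decide
  · rw [if_neg hππ]
    have hπe : π ∈ (PD D).erase π₁ := Finset.mem_erase.2 ⟨hππ, hπ⟩
    have hdm : nrm π ∣ m := Finset.dvd_prod_of_mem _ hπe
    have h7 := nrm_int π
    rcases (hPP π hπ).cases with ⟨p', hp', hp4', hpn'⟩ | ⟨q', hq', hq4, hqn⟩
    · have e1 : nrm π = p' := by rw [hpn'] at h7; exact_mod_cast h7
      rw [hpn', jacobiSym.legendreSym.to_jacobiSym,
        jacobiSym.quadratic_reciprocity_one_mod_four hp4' (Nat.odd_iff.2 (by omega))]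
      have h9 : jacobiSym (q : ℤ) p' = jacobiSym 1 p' := by
        rw [jacobiSym.mod_left (q : ℤ) p', jacobiSym.mod_left 1 p']
        congr 1
        have h11 : q ≡ 1 [MOD p'] := hqm.of_dvd (by rw [← e1]; exact hdm)
        have h10 : (q : ℤ) ≡ ((1 : ℕ) : ℤ) [ZMOD (p' : ℤ)] := (Int.natCast_modEq_iff).2 h11
        exact h10
      rw [h9, jacobiSym.one_left]
    · have e1 : π.norm = (q' : ℤ) ^ 2 := by
        rw [hqn, Zsqrtd.norm_neg, norm_def']
        simp only [Zsqrtd.re_natCast, Zsqrtd.im_natCast]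
        ring
      have e2 : nrm π = q' ^ 2 := by
        rw [e1] at h7
        exact_mod_cast h7
      rw [e1]
      refine legendreSym.sq_one' q ?_
      intro h12
      have h13 : q ∣ q' := by
        have := (ZMod.intCast_zmod_eq_zero_iff_dvd (q' : ℤ) q).1 h12
        exact_mod_cast this
      have h14 : q ∣ m := (h13.trans (dvd_pow_self q' two_ne_zero)).trans (by rw [← e2]; exact hdm)
      have h15 : q ∣ 1 := by
        have h16 := (hqm.of_dvd h14)
        exact (Nat.modEq_zero_iff_dvd.1 (h16.symm.trans (by simp [Nat.ModEq])))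
      exact hq.one_lt.ne' (Nat.dvd_one.1 h15)

end Pool.Agent.L7h3.QE
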