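import Pool.Agent.L7h3.QE.Tw

/-!
# Towers with fourth roots: the induction
-/

set_option autoImplicit false
set_option linter.unusedSectionVars false

open NumberField IsDedekindDomain

namespace Pool.Agent.L7h3.QE

open scoped Classical
open WithZero
open Pool.Agent.L7h3.MQ
open Pool.Agent.L7h3.MR
open Pool.Agent.Y699
open Pool.Agent.H921R2.TatePole (nm two_le_nm below)
open H385 (ZI RQ im1 nrm)
open Pool.Agent.H304R2.EC.A1 (prim prim_mul prim_cancel prim_one prim_norm_odd prim_star eq_one_of_prim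
  norm_def' re_mul' im_mul' eq_of_dvd prim_ne_zero exists_prim)
open Pool.Agent.Y715.Z

section fields

variable {K F : Type} [Field K] [NumberField K] [Field F] [NumberField F] [Algebra K F]

lemma peel (T : Finset F) {x : F} {M : IntermediateField K F}
    (hM : M = IntermediateField.adjoin K ((T.erase x : Finset F) : Set F))
    (htop : IntermediateField.adjoin K (T : Set F) = ⊤)
    (hne : M ≠ ⊤) {c : M} (hc : x ^ 2 = algebraMap M F c) :
    x ∉ Set.range (algebraMap M F) ∧ Module.finrank M F = 2 := by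
  have hTM : ∀ t ∈ T.erase x, t ∈ M := fun t ht => by
    rw [hM]
    exact IntermediateField.subset_adjoin K _ (Finset.mem_coe.2 ht)
  have hxM : x ∉ Set.range (algebraMap M F) := by
    rintro ⟨y, hy⟩
    apply hne
    rw [eq_top_iff, ← htop, IntermediateField.adjoin_le_iff]
    intro t ht
    by_cases htx : t = x
    · rw [htx, ← hy]
      exact y.2
    · exact hTM t (Finset.mem_erase.2 ⟨htx, Finset.mem_coe.1 ht⟩)
  refine ⟨hxM, finrank_two (x := x) (c := c) hc hxM ?_⟩
  rw [eq_top_iff]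
  intro y _
  have hy : y ∈ (⊤ : IntermediateField K F) := trivial
  rw [← htop] at hy
  have hle : IntermediateField.adjoin K (T : Set F) ≤
      (IntermediateField.adjoin M {x}).restrictScalars K := by
    rw [IntermediateField.adjoin_le_iff]
    intro t ht
    show t ∈ (IntermediateField.adjoin M {x})
    by_cases htx : t = x
    · rw [htx]
      exact IntermediateField.mem_adjoin_simple_self M x
    · exact (IntermediateField.adjoin M {x}).algebraMap_mem
        ⟨t, hTM t (Finset.mem_erase.2 ⟨htx, Finset.mem_coe.1 ht⟩)⟩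
  exact hle hy

/-- the generators of the smaller field -/
noncomputable def low (M : IntermediateField K F) (T : Finset F) : Finset M :=
  T.subtype (· ∈ M)

lemma low_card {M : IntermediateField K F} {T : Finset F} (hT : ∀ t ∈ T, t ∈ M) :
    (low M T).card = T.card := by
  unfold low
  rw [Finset.card_subtype, Finset.filter_true_of_mem hT]

lemma mem_low {M : IntermediateField K F} {T : Finset F} {t : M} : t ∈ low M T ↔ (t : F) ∈ T := by
  unfold low
  rw [Finset.mem_subtype]

lemma low_top (T : Finset F) {M : IntermediateField K F}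
    (hM : M = IntermediateField.adjoin K (T : Set F)) :
    IntermediateField.adjoin K ((low M T : Finset M) : Set M) = ⊤ := by
  have hTM : ∀ t ∈ T, t ∈ M := fun t ht => by
    rw [hM]
    exact IntermediateField.subset_adjoin K _ (Finset.mem_coe.2 ht)
  have h1 : (IntermediateField.adjoin K ((low M T : Finset M) : Set M)).map M.val =
      (⊤ : IntermediateField K M).map M.val := by
    rw [IntermediateField.adjoin_map]
    have h2 : (M.val '' ((low M T : Finset M) : Set M)) = (T : Set F) := by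
      ext t
      constructor
      · rintro ⟨t', ht', rfl⟩
        exact Finset.mem_coe.2 (mem_low.1 (Finset.mem_coe.1 ht'))
      · intro ht
        exact ⟨⟨t, hTM t ht⟩, Finset.mem_coe.2 (mem_low.2 ht), rfl⟩
    rw [h2, ← hM, ← AlgHom.fieldRange_eq_map, IntermediateField.fieldRange_val]
  exact IntermediateField.map_injective M.val h1

end fields

variable {ι : Type} [DecidableEq ι] {pr : ι → ZI}

/-- what is proved for a field of the tower -/
def GoodQ {F : Type} [Field F] [NumberField F] (pr : ι → ZI) (V : Finset ι) (𝒪 : Set (Finset ι))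
    (γ : ZI →+* 𝓞 F) : Prop :=
  Two F ∧ ∀ O ∈ 𝒪, ∀ ex : ι → ℕ, Adm pr V O ex → Con ((γ (DE pr V ex) : 𝓞 F) : F)

section step

variable {F F' : Type} [Field F] [NumberField F] [Field F'] [NumberField F'] [Algebra F F']

/-- **the step of the tower**, square roots of elements of the base field -/
theorem GoodQ.step2 {V S : Finset ι} {𝒪 : Set (Finset ι)} {γ : ZI →+* 𝓞 F} (H : GoodQ pr V 𝒪 γ)
    (hp : PF pr) (hS : S ⊆ V) (hγ : Function.Injective γ)
    (hN : (DD pr S).norm % 8 = 1) (h2 : Module.finrank F F' = 2) {θ : 𝓞 F'}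
    (hθ : θ ^ 2 = algebraMap (𝓞 F) (𝓞 F') (γ (DD pr S)))
    (hn : (θ : F') ∉ Set.range (algebraMap F F')) :
    GoodQ pr V 𝒪 ((algebraMap (𝓞 F) (𝓞 F')).comp γ) := by
  have hθ' : (θ : F') ^ 2 = algebraMap F F' ((γ (DD pr S) : 𝓞 F) : F) := by
    have h5 : ((θ ^ 2 : 𝓞 F') : F') =
      ((algebraMap (𝓞 F) (𝓞 F') (γ (DD pr S)) : 𝓞 F') : F') := by rw [hθ]
    exact h5
  obtain ⟨σ, hσ, -, -⟩ := quad_conj h2 hθ' hn
  have hI : Two F' := H.1.step (pr := pr) (S := S) (γ := γ) hp hN h2 σ hθ hσ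
  refine ⟨hI, fun O hO ex hA => ?_⟩
  have hA' := hA.twist hp hS hN
  have e1 : ((γ (DE pr V (fun i => if i ∈ S then ex i + 2 else ex i)) : 𝓞 F) : F) =
      ((γ (DE pr V ex) : 𝓞 F) : F) * ((γ (DD pr S) : 𝓞 F) : F) ^ 2 := by
    rw [DE_twist hS, map_mul, map_pow]
    rfl
  have c1 := H.2 O hO ex hA
  have c2 := H.2 O hO _ hA'
  have b1 : Bad2 ((γ (DE pr V ex) : 𝓞 F) : F) := bad2 hp hA.2 H.1
  have b2 := bad2 (γ := γ) hp hA'.2 H.1
  have b3 : Bad2 ((((algebraMap (𝓞 F) (𝓞 F')).comp γ) (DE pr V ex) : 𝓞 F') : F') := bad2 hp hA.2 hI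
  rw [e1] at c2 b2
  refine con_step h2 hθ' hn ?_ b1 b2 b3 c1 c2
  intro h0
  apply DE_ne hp V ex
  apply hγ
  rw [map_zero]
  exact RingOfIntegers.ext h0

lemma DE_twist1 {V S : Finset ι} (hS : S ⊆ V) (ex : ι → ℕ) :
    DE pr V (fun i => if i ∈ S then ex i + 1 else ex i) = DE pr V ex * DD pr S := by
  unfold DE DD
  have h1 : ∏ i ∈ S, pr i = ∏ i ∈ V, if i ∈ S then pr i else 1 := by
    rw [Finset.prod_ite_mem, Finset.inter_eq_right.2 hS]
  rw [h1, ← Finset.prod_mul_distrib]
  refine Finset.prod_congr rfl fun i _ => ?_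
  dsimp only
  by_cases h : i ∈ S
  · rw [if_pos h, if_pos h, pow_succ]
  · rw [if_neg h, if_neg h, mul_one]

lemma norm_one_mod {S : Finset ι} {k : ZI} (hk : DD pr S = 1 + 8 * k) :
    (DD pr S).norm % 16 = 1 := by
  rw [hk, norm_def']
  have e1 : (1 + 8 * k : ZI).re = 1 + 8 * k.re := by simp
  have e2 : (1 + 8 * k : ZI).im = 8 * k.im := by simp
  rw [e1, e2]
  have : (1 + 8 * k.re) ^ 2 + (8 * k.im) ^ 2 = 1 + 16 * (k.re + 4 * k.re ^ 2 + 4 * k.im ^ 2) := by
    ring
  rw [this]
  omega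

lemma Adm_twist1 (hp : PF pr) {V O S : Finset ι} (hS : S ⊆ V) (hO : O ⊆ V) {k : ZI}
    (hk : DD pr S = 1 + 8 * k) {ex : ι → ℕ} (h : Adm pr V O ex) :
    Adm pr V (symmDiff O S) (fun i => if i ∈ S then ex i + 1 else ex i) := by
  constructor
  · intro i hi
    have h1 := h.1 i hi
    rw [Finset.mem_symmDiff]
    dsimp only
    by_cases hiS : i ∈ S
    · rw [if_pos hiS]
      constructor
      · intro h2
        right
        exact ⟨hiS, fun h3 => by have := h1.2 h3; omega⟩
      · rintro (h2 | h2)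
        · exact absurd hiS h2.2
        · have : ¬ ex i % 2 = 1 := fun h3 => h2.2 (h1.1 h3)
          omega
    · rw [if_neg hiS, h1]
      constructor
      · intro h2; exact Or.inl ⟨h2, hiS⟩
      · rintro (h2 | h2)
        · exact h2.1
        · exact absurd h2.1 hiS
  · have h1 : Wt pr V (fun i => if i ∈ S then ex i + 1 else ex i) =
        Wt pr V ex + ∑ i ∈ S, wq (pr i) := by
      unfold Wt
      have h2 : ∑ i ∈ S, wq (pr i) = ∑ i ∈ V, if i ∈ S then wq (pr i) else 0 := by
        rw [Finset.sum_ite_mem, Finset.inter_eq_right.2 hS]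
      rw [h2, ← Finset.sum_add_distrib]
      refine Finset.sum_congr rfl fun i _ => ?_
      dsimp only
      by_cases h : i ∈ S
      · rw [if_pos h, if_pos h]; ring
      · rw [if_neg h, if_neg h]; ring
    have h3 := norm_DE16 hp S (fun _ => 1)
    rw [DE_ones] at h3
    rw [norm_one_mod hk] at h3
    have h6 : Wt pr S (fun _ => 1) = ∑ i ∈ S, wq (pr i) := by
      unfold Wt
      exact Finset.sum_congr rfl fun i _ => one_mul _
    rw [h6] at h3
    have h5 : (∑ i ∈ S, wq (pr i)) % 4 = 0 := by omega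
    rw [h1]
    have := h.2
    omega

/-- **the step of the tower**, square roots of square roots -/
theorem GoodQ.step4 {V S : Finset ι} {𝒪 : Set (Finset ι)} {γ : ZI →+* 𝓞 F} (H : GoodQ pr V 𝒪 γ)
    (hp : PF pr) (hS : S ⊆ V) (hγ : Function.Injective γ) (hsub : ∀ O ∈ 𝒪, O ⊆ V)
    {k : ZI} (hk : DD pr S = 1 + 8 * k) (hO4 : ∀ O ∈ 𝒪, symmDiff O S ∈ 𝒪)
    (h2 : Module.finrank F F' = 2) {u : 𝓞 F} (hu : u ^ 2 = γ (DD pr S)) {θ : 𝓞 F'}
    (hθ : θ ^ 2 = algebraMap (𝓞 F) (𝓞 F') u)
    (hn : (θ : F') ∉ Set.range (algebraMap F F')) :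
    GoodQ pr V 𝒪 ((algebraMap (𝓞 F) (𝓞 F')).comp γ) := by
  have hθ' : (θ : F') ^ 2 = algebraMap F F' (u : F) := by
    have h5 : ((θ ^ 2 : 𝓞 F') : F') = ((algebraMap (𝓞 F) (𝓞 F') u : 𝓞 F') : F') := by rw [hθ]
    exact h5
  obtain ⟨σ, hσ, -, -⟩ := quad_conj h2 hθ' hn
  have hI : Two F' := by
    refine two_step4 H.1 (I := γ im1) ?_ (u := u) (k := γ k) ?_ h2 σ hθ hσ
    · rw [← map_pow]
      have : (im1 : ZI) ^ 2 = -1 := by decide
      rw [this, map_neg, map_one]
    · rw [hu, hk, map_add, map_mul, map_one, map_ofNat]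
  refine ⟨hI, fun O hO ex hA => ?_⟩
  have hA' := Adm_twist1 hp hS (hsub O hO) hk hA
  have e1 : ((γ (DE pr V (fun i => if i ∈ S then ex i + 1 else ex i)) : 𝓞 F) : F) =
      ((γ (DE pr V ex) : 𝓞 F) : F) * (u : F) ^ 2 := by
    rw [DE_twist1 hS, map_mul, ← hu, ]
    rfl
  have c1 := H.2 O hO ex hA
  have c2 := H.2 _ (hO4 O hO) _ hA'
  have b1 : Bad2 ((γ (DE pr V ex) : 𝓞 F) : F) := bad2 hp hA.2 H.1
  have b2 := bad2 (γ := γ) hp hA'.2 H.1
  have b3 : Bad2 ((((algebraMap (𝓞 F) (𝓞 F')).comp γ) (DE pr V ex) : 𝓞 F') : F') := bad2 hp hA.2 hI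
  rw [e1] at c2 b2
  refine con_step h2 hθ' hn ?_ b1 b2 b3 c1 c2
  intro h0
  apply DE_ne hp V ex
  apply hγ
  rw [map_zero]
  exact RingOfIntegers.ext h0

end step

/-- a square root of an element of the base field -/
def IsA {K F : Type} [Field K] [NumberField K] [Field F] [Algebra K F] (e : ZI ≃+* 𝓞 K)
    (pr : ι → ZI) (V : Finset ι) (t : F) : Prop :=
  ∃ S ⊆ V, (DD pr S).norm % 8 = 1 ∧ t ^ 2 = algebraMap K F ((e (DD pr S) : 𝓞 K) : K)

/-- a fourth root of an element of the base field -/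
def IsB {K F : Type} [Field K] [NumberField K] [Field F] [Algebra K F] (e : ZI ≃+* 𝓞 K)
    (pr : ι → ZI) (V : Finset ι) (𝒪 : Set (Finset ι)) (t : F) : Prop :=
  ∃ S ⊆ V, (∃ k : ZI, DD pr S = 1 + 8 * k) ∧ (∀ O ∈ 𝒪, symmDiff O S ∈ 𝒪) ∧
    t ^ 4 = algebraMap K F ((e (DD pr S) : 𝓞 K) : K)

/-- **the induction** -/
theorem towerQ [Fintype ι] {K : Type} [Field K] [NumberField K] (e : ZI ≃+* 𝓞 K)
    {V : Finset ι} {𝒪 : Set (Finset ι)} (hp : PF pr) (H : ∀ O ∈ 𝒪, Dat pr V O) :
    ∀ (n : ℕ) (F : Type) [Field F] [NumberField F] [Algebra K F] (T₂ T₄ : Finset F),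
      (T₂ ∪ T₄).card = n →
      (∀ t ∈ T₂, IsA e pr V t) → (∀ t ∈ T₄, t ^ 2 ∈ T₂ ∧ IsB e pr V 𝒪 t) → Disjoint T₂ T₄ →
      IntermediateField.adjoin K ((T₂ ∪ T₄ : Finset F) : Set F) = ⊤ →
      GoodQ pr V 𝒪 ((algebraMap (𝓞 K) (𝓞 F)).comp (e : ZI →+* 𝓞 K)) := by
  intro n
  induction n with
  | zero =>
    intro F _ _ _ T₂ T₄ hT _ _ _ htop
    rw [Finset.card_eq_zero] at hT
    rw [hT, Finset.coe_empty, IntermediateField.adjoin_empty] at htop
    have hbij : Function.Bijective (algebraMap K F) := by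
      refine ⟨(algebraMap K F).injective, fun x => ?_⟩
      have hx : x ∈ (⊤ : IntermediateField K F) := trivial
      rw [← htop, IntermediateField.mem_bot] at hx
      exact hx
    let eF : ZI ≃+* 𝓞 F := e.trans (RingOfIntegers.mapRingEquiv (RingEquiv.ofBijective _ hbij))
    have h1 : (algebraMap (𝓞 K) (𝓞 F)).comp (e : ZI →+* 𝓞 K) = (eF : ZI →+* 𝓞 F) := by
      apply RingHom.ext
      intro z
      apply RingOfIntegers.ext
      rfl
    rw [h1]
    exact ⟨base_two eF, fun O hO ex hA => baseR eF (H O hO) hA⟩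
  | succ n ih =>
    intro F _ _ _ T₂ T₄ hT hA hB hdis htop
    -- the element that is removed
    obtain ⟨x, hx, hx4⟩ : ∃ x ∈ T₂ ∪ T₄, x ∈ T₂ → T₄ = ∅ := by
      by_cases h4 : T₄ = ∅
      · have h1 : (T₂ ∪ T₄).Nonempty := by rw [← Finset.card_pos, hT]; omega
        obtain ⟨x, hx⟩ := h1
        exact ⟨x, hx, fun _ => h4⟩
      · obtain ⟨x, hx⟩ := Finset.nonempty_iff_ne_empty.2 h4
        exact ⟨x, Finset.mem_union_right _ hx, fun h => absurd hx (Finset.disjoint_left.1 hdis h)⟩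
    have hcard : ((T₂ ∪ T₄).erase x).card = n := by
      rw [Finset.card_erase_of_mem hx, hT]; rfl
    have hun : (T₂ ∪ T₄).erase x = T₂.erase x ∪ T₄.erase x := Finset.erase_union_distrib _ _ _
    have hB' : ∀ t ∈ T₄.erase x, t ^ 2 ∈ T₂.erase x := by
      intro t ht
      have ht4 := Finset.mem_of_mem_erase ht
      refine Finset.mem_erase.2 ⟨?_, (hB t ht4).1⟩
      intro h
      have h5 := hx4 (by rw [← h]; exact (hB t ht4).1)
      rw [h5] at ht4
      exact Finset.notMem_empty _ ht4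
    have hdis' : Disjoint (T₂.erase x) (T₄.erase x) :=
      Finset.disjoint_of_subset_left (Finset.erase_subset _ _)
        (Finset.disjoint_of_subset_right (Finset.erase_subset _ _) hdis)
    by_cases htop' : IntermediateField.adjoin K (((T₂ ∪ T₄).erase x : Finset F) : Set F) = ⊤
    · rw [hun] at hcard htop'
      exact ih F (T₂.erase x) (T₄.erase x) hcard (fun t ht => hA t (Finset.mem_of_mem_erase ht))
        (fun t ht => ⟨hB' t ht, (hB t (Finset.mem_of_mem_erase ht)).2⟩) hdis' htop'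
    · set M := IntermediateField.adjoin K (((T₂ ∪ T₄).erase x : Finset F) : Set F) with hM
      have hTM : ∀ t ∈ (T₂ ∪ T₄).erase x, t ∈ M := fun t ht =>
        IntermediateField.subset_adjoin K _ (Finset.mem_coe.2 ht)
      have hlow : ∀ d : DecidableEq M, low M ((T₂ ∪ T₄).erase x) =
          @Union.union _ (@Finset.instUnion _ d) (low M (T₂.erase x)) (low M (T₄.erase x)) := by
        intro d
        ext t
        rw [mem_low, Finset.mem_union, mem_low, mem_low, hun, Finset.mem_union]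
      have hAM : ∀ t ∈ low M (T₂.erase x), IsA e pr V t := by
        intro t ht
        obtain ⟨S, h1, h2, h3⟩ := hA _ (Finset.mem_of_mem_erase (mem_low.1 ht))
        exact ⟨S, h1, h2, Subtype.ext h3⟩
      have hBM : ∀ t ∈ low M (T₄.erase x), t ^ 2 ∈ low M (T₂.erase x) ∧ IsB e pr V 𝒪 t := by
        intro t ht
        refine ⟨mem_low.2 (hB' _ (mem_low.1 ht)), ?_⟩
        obtain ⟨S, h1, h2, h3, h4⟩ := (hB _ (Finset.mem_of_mem_erase (mem_low.1 ht))).2
        exact ⟨S, h1, h2, h3, Subtype.ext h4⟩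
      have hdM : Disjoint (low M (T₂.erase x)) (low M (T₄.erase x)) := by
        rw [Finset.disjoint_left]
        intro t h1 h2
        exact Finset.disjoint_left.1 hdis' (mem_low.1 h1) (mem_low.1 h2)
      have hG := ih M (low M (T₂.erase x)) (low M (T₄.erase x))
        (by rw [← hlow, low_card hTM, hcard]) hAM hBM hdM (by rw [← hlow]; exact low_top _ hM)
      have hinj : Function.Injective ((algebraMap (𝓞 K) (𝓞 M)).comp (e : ZI →+* 𝓞 K)) :=
        (FaithfulSMul.algebraMap_injective (𝓞 K) (𝓞 M)).comp e.injective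
      have hfin : (algebraMap (𝓞 K) (𝓞 F)).comp (e : ZI →+* 𝓞 K) = (algebraMap (𝓞 M) (𝓞 F)).comp
          ((algebraMap (𝓞 K) (𝓞 M)).comp (e : ZI →+* 𝓞 K)) := by
        apply RingHom.ext
        intro z
        apply RingOfIntegers.ext
        rfl
      rw [hfin]
      rcases Finset.mem_union.1 hx with hx2 | hx4'
      · -- a square root
        obtain ⟨S, hS, hN, hx2⟩ := hA x hx2
        obtain ⟨hxM, h2⟩ := peel (T₂ ∪ T₄) hM htop htop'
          (c := algebraMap K M ((e (DD pr S) : 𝓞 K) : K)) (by rw [hx2]; rfl)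
        have hint : IsIntegral ℤ x := by
          refine IsIntegral.of_pow (n := 2) (by norm_num) ?_
          rw [hx2]
          exact (algebraMap (𝓞 K) (𝓞 F) (e (DD pr S))).2
        let θ : 𝓞 F := ⟨x, hint⟩
        have hθ : θ ^ 2 = algebraMap (𝓞 M) (𝓞 F)
            (((algebraMap (𝓞 K) (𝓞 M)).comp (e : ZI →+* 𝓞 K)) (DD pr S)) := by
          apply RingOfIntegers.ext
          show x ^ 2 = _
          rw [hx2]
          rfl
        exact hG.step2 hp hS hinj hN h2 hθ hxM
      · -- a fourth root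
        obtain ⟨h20, S, hS, ⟨k, hk⟩, hO4, hx4⟩ := hB x hx4'
        have hx2M : x ^ 2 ∈ M := by
          refine hTM _ ?_
          rw [hun]
          refine Finset.mem_union_left _ (Finset.mem_erase.2 ⟨?_, h20⟩)
          intro h
          exact Finset.disjoint_left.1 hdis (by rw [← h]; exact h20) hx4'
        have hint : IsIntegral ℤ x := by
          refine IsIntegral.of_pow (n := 4) (by norm_num) ?_
          rw [hx4]
          exact (algebraMap (𝓞 K) (𝓞 F) (e (DD pr S))).2
        have hintM : IsIntegral ℤ (⟨x ^ 2, hx2M⟩ : M) := by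
          have h1 : IsIntegral ℤ (algebraMap M F (⟨x ^ 2, hx2M⟩ : M)) := hint.pow 2
          exact (isIntegral_algebraMap_iff (algebraMap M F).injective).1 h1
        let u : 𝓞 M := ⟨⟨x ^ 2, hx2M⟩, hintM⟩
        obtain ⟨hxM, h2⟩ := peel (T₂ ∪ T₄) hM htop htop' (c := (⟨x ^ 2, hx2M⟩ : M)) rfl
        let θ : 𝓞 F := ⟨x, hint⟩
        have hθ : θ ^ 2 = algebraMap (𝓞 M) (𝓞 F) u := by
          apply RingOfIntegers.ext
          rfl
        have hu : u ^ 2 = ((algebraMap (𝓞 K) (𝓞 M)).comp (e : ZI →+* 𝓞 K)) (DD pr S) := by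
          apply RingOfIntegers.ext
          apply Subtype.ext
          show (x ^ 2) ^ 2 = _
          rw [← pow_mul, hx4]
          rfl
        exact hG.step4 hp hS hinj (fun O hO => (H O hO).sub) hk hO4 h2 hu hθ hxM

end Pool.Agent.L7h3.QE
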