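import Pool.Agent.L7h3.QE.Inf

/-!
# Towers with fourth roots: the leaves give the data
-/

set_option autoImplicit false
set_option linter.unusedSectionVars false

open NumberField IsDedekindDomain

namespace Pool.Agent.L7h3.QE

open scoped Classical
open Finset
open Pool.Agent.L7h3.MQ
open Pool.Agent.L7h3.MR
open Pool.Agent.L7h3.GX (Sol Gd ClsG good4_of good4_to nrm_int cls_norm)
open Pool.Agent.Y699
open H385 (ZI RQ im1 nrm)
open Pool.Agent.H304R2.EC.A1 (prim prim_mul prim_cancel prim_one prim_norm_odd prim_star eq_one_of_prim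
  norm_def' re_mul' im_mul' eq_of_dvd prim_ne_zero exists_prim)

lemma Leaf.not_mem {D π₁ ρ : ZI} (h : Leaf D π₁ ρ) : ρ ∉ PD D := by
  intro h1
  have h2 := h.sy ρ h1
  have h3 : qr ρ ρ = 0 := qr_zero_iff.2 dvd_rfl
  rw [h3] at h2
  split_ifs at h2
  exact absurd h2 (by norm_num)

/-- two different leaves are residues of each other -/
lemma Leaf.two {D π₁ ρ σ : ZI} (h : Leaf D π₁ ρ) (h' : Leaf D π₁ σ) (hne : ρ ≠ σ) : qr ρ σ = 1 := by
  have hP := h.pp
  obtain ⟨q, hq, h8, hρ⟩ := h.ex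
  obtain ⟨r, hr, h8', hσ⟩ := h'.ex
  have := Fact.mk hq
  rw [qr_inert hP (by omega) hρ]
  have e1 : σ.norm = (r : ℤ) ^ 2 := by
    rw [hσ, Zsqrtd.norm_neg, norm_def']
    simp only [Zsqrtd.re_natCast, Zsqrtd.im_natCast]
    ring
  rw [e1]
  refine legendreSym.sq_one' q ?_
  intro h12
  have h13 : q ∣ r := by
    have := (ZMod.intCast_zmod_eq_zero_iff_dvd (r : ℤ) q).1 h12
    exact_mod_cast this
  apply hne
  rw [hρ, hσ, (Nat.prime_dvd_prime_iff_eq hq hr).1 h13]

lemma ep_of_one {π a : ZI} (h : qr π a = 1) : ep π a = 0 := by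
  unfold ep
  rw [h]
  decide

lemma ep_of_neg {π a : ZI} (h : qr π a = -1) : ep π a = 1 := by
  unfold ep
  rw [h]
  decide

lemma Leaf.norm {D π₁ ρ : ZI} (h : Leaf D π₁ ρ) : ρ.norm % 16 = 1 ∧ (8 : ZI) ∣ ρ - 1 := by
  obtain ⟨q, hq, h8, hρ⟩ := h.ex
  obtain ⟨k, hk⟩ : ∃ k, q = 8 * k + 7 := ⟨q / 8, by omega⟩
  constructor
  · rw [hρ, Zsqrtd.norm_neg, norm_def']
    simp only [Zsqrtd.re_natCast, Zsqrtd.im_natCast]
    rw [hk]
    push_cast
    have : (8 * (k : ℤ) + 7) ^ 2 + 0 = 1 + 16 * (4 * (k : ℤ) ^ 2 + 7 * k + 3) := by ring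
    rw [this]
    omega
  · refine ⟨-(k : ZI) - 1, ?_⟩
    rw [hρ, hk]
    push_cast
    ring

section

variable {D π₁ : ZI} (hg : Good4 D) (h1 : π₁ ∈ PD D) {R : Finset ZI} (hR : ∀ ρ ∈ R, Leaf D π₁ ρ)

include hg hR

lemma leaf_PS : PS (D * ∏ ρ ∈ R, ρ) ∧ PD (D * ∏ ρ ∈ R, ρ) = PD D ∪ R := by
  have hdis : Disjoint (PD D) R := by
    rw [Finset.disjoint_left]
    intro π h2 h3
    exact (hR π h3).not_mem h2
  have h2 : ∀ π ∈ PD D ∪ R, PP π := by
    intro π hπ
    rcases Finset.mem_union.1 hπ with h3 | h3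
    · exact ((mem_PD hg.ps.ne).1 h3).1
    · exact (hR π h3).pp
  have h3 := PS_prod h2
  rwa [Finset.prod_union hdis, hg.ps.prod] at h3

include h1

/-- the curves of the family are good -/
lemma leaf_good : Good4 (D * ∏ ρ ∈ R, ρ) := by
  obtain ⟨hPS, hPD⟩ := leaf_PS hg hR
  refine good4_of ⟨hPS, cls_norm.2 ?_⟩ ?_
  · have h2 : ∀ S ⊆ R, (∏ ρ ∈ S, ρ).norm % 16 = 1 := by
      intro S
      induction S using Finset.induction_on with
      | empty => intro _; rw [Finset.prod_empty]; decide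
      | insert a S ha ih =>
        intro hS
        have h3 := (hR a (hS (Finset.mem_insert_self a S))).norm.1
        have h4 := ih (fun x hx => hS (Finset.mem_insert_of_mem hx))
        rw [Finset.prod_insert ha, Zsqrtd.norm_mul, Int.mul_emod, h3, h4]
        norm_num
    rw [Zsqrtd.norm_mul, Int.mul_emod, hg.nm, h2 R (Finset.Subset.refl _)]
    norm_num
  · rw [hPD]
    have hdis : Disjoint (PD D) R := by
      rw [Finset.disjoint_left]
      intro π h2 h3
      exact (hR π h3).not_mem h2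
    intro v hv
    -- the leaves
    have hleaf : ∀ ρ ∈ R, v ρ = v π₁ := by
      intro ρ hρ
      have h2 := hv ρ (Finset.mem_union_right _ hρ)
      rw [Finset.sum_union hdis] at h2
      have h3 : ∑ σ ∈ R, ep ρ σ * (v σ - v ρ) = 0 := by
        refine Finset.sum_eq_zero fun σ hσ => ?_
        by_cases he : ρ = σ
        · rw [he, sub_self, mul_zero]
        · rw [ep_of_one ((hR ρ hρ).two (hR σ hσ) he), zero_mul]
      have h4 : ∑ π ∈ PD D, ep ρ π * (v π - v ρ) = v π₁ - v ρ := by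
        rw [Finset.sum_eq_single_of_mem π₁ h1]
        · have h5 := (hR ρ hρ).sy π₁ h1
          rw [if_pos rfl] at h5
          rw [ep_of_neg h5, one_mul]
        · intro π hπ hne
          have h5 := (hR ρ hρ).sy π hπ
          rw [if_neg hne] at h5
          rw [ep_of_one h5, zero_mul]
      rw [h3, h4, add_zero] at h2
      exact (sub_eq_zero.1 h2).symm
    -- the primes of `D`
    have hD : ∀ π ∈ PD D, ∀ π' ∈ PD D, v π = v π' := by
      refine (good4_to hg).2 v ?_
      intro π hπ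
      have h2 := hv π (Finset.mem_union_left _ hπ)
      rw [Finset.sum_union hdis] at h2
      have h3 : ∑ σ ∈ R, ep π σ * (v σ - v π) = 0 := by
        refine Finset.sum_eq_zero fun σ hσ => ?_
        rw [hleaf σ hσ]
        by_cases he : π = π₁
        · rw [he, sub_self, mul_zero]
        · have h5 := (hR σ hσ).sy π hπ
          rw [if_neg he] at h5
          have h6 : qr π σ = 1 := by
            rw [qr_rec ((mem_PD hg.ps.ne).1 hπ).1 (hR σ hσ).pp]
            exact h5
          rw [ep_of_one h6, zero_mul]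
      rw [h3, add_zero] at h2
      exact h2
    have hall : ∀ π ∈ PD D ∪ R, v π = v π₁ := by
      intro π hπ
      rcases Finset.mem_union.1 hπ with h2 | h2
      · exact hD π h2 π₁ h1
      · exact hleaf π h2
    intro π hπ ρ hρ
    rw [hall π hπ, hall ρ hρ]

end

/-- **the leaves give the data** -/
theorem leaf_quart {D π₁ : ZI} (hg : Good4 D) (h1 : π₁ ∈ PD D) {R : Finset ZI}
    (hR : ∀ ρ ∈ R, Leaf D π₁ ρ) : Quart D R := by
  refine ⟨fun J hJ => leaf_good hg h1 (fun ρ hρ => hR ρ (hJ hρ)), fun ρ hρ => (hR ρ hρ).norm.2, ?_⟩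
  intro ρ hρ π hπ hd J hJ
  have hρP := (hR ρ hρ).pp
  have hass : Associated π ρ := hπ.associated_of_dvd hρP.pr hd
  by_cases hρJ : ρ ∈ J
  · left
    exact (hd.trans (Finset.dvd_prod_of_mem (fun x => x) hρJ)).trans (dvd_mul_left _ _)
  · right
    intro x hx
    have hx' : ρ ∣ x ^ 2 - D * ∏ σ ∈ J, σ := hass.symm.dvd.trans hx
    have h2 : qr ρ (D * ∏ σ ∈ J, σ) = -1 := by
      have e1 : qr ρ D = -1 := by
        have h3 := hg.ps.prod
        have h4 : qr ρ (∏ π ∈ PD D, π) = ∏ π ∈ PD D, qr ρ π := by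
          have h5 := jac_prod hρP.ne (PD D) (fun u => u)
          rw [jac_prime hρP] at h5
          rw [h5]
          exact Finset.prod_congr rfl fun u _ => jac_prime hρP u
        rw [← h3, h4, ← Finset.mul_prod_erase _ _ h1]
        have h5 := (hR ρ hρ).sy π₁ h1
        rw [if_pos rfl] at h5
        rw [h5, Finset.prod_eq_one, mul_one]
        intro π hπ
        obtain ⟨hne, hπD⟩ := Finset.mem_erase.1 hπ
        have h6 := (hR ρ hρ).sy π hπD
        rwa [if_neg hne] at h6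
      have e2 : qr ρ (∏ σ ∈ J, σ) = 1 := by
        have h5 := jac_prod hρP.ne J (fun u => u)
        rw [jac_prime hρP] at h5
        rw [h5]
        refine Finset.prod_eq_one fun u hu => ?_
        rw [jac_prime hρP]
        exact (hR ρ hρ).two (hR u (hJ hu)) (fun h => hρJ (by rw [h]; exact hu))
      rw [qr_mul hρP, e1, e2, mul_one]
    have h3 : qr ρ (x ^ 2) = -1 := (qr_per hx').trans h2
    by_cases h4 : ρ ∣ x
    · have h5 : qr ρ (x ^ 2) = 0 := qr_zero_iff.2 (dvd_pow h4 two_ne_zero)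
      rw [h5] at h3
      norm_num at h3
    · have h5 := qr_sq' hρP h4
      rw [h5] at h3
      norm_num at h3

/-- **there are infinitely many primes whose fourth roots can be adjoined, in any number** -/
theorem inf_quart {D : ZI} (hg : Good4 D) : ∃ P : Set ZI, P.Infinite ∧
    (∀ ρ ∈ P, ∃ q : ℕ, q.Prime ∧ q % 8 = 7 ∧ ρ = -(q : ZI)) ∧
    ∀ R : Finset ZI, (R : Set ZI) ⊆ P → Quart D R := by
  obtain ⟨π₁, h1, h2, h3⟩ := exists_leaf hg.ps hg.good.five
  refine ⟨{ρ | Leaf D π₁ ρ}, inf_leaf hg.ps h1 h2 h3, fun ρ hρ => hρ.ex, fun R hR => ?_⟩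
  exact leaf_quart hg h1 (fun ρ hρ => hR (Finset.mem_coe.2 hρ))

end Pool.Agent.L7h3.QE
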