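import Pool.Agent.L7h3.QE.Tq
import Pool.Agent.L7h3.MR.Fr

/-!
# Towers with fourth roots: the final assembly
-/

set_option autoImplicit false
set_option linter.unusedSectionVars false

open NumberField IsDedekindDomain

namespace Pool.Agent.L7h3.QE

open scoped Classical
open Pool.Agent.L7h3.MQ
open Pool.Agent.L7h3.MR
open Pool.Agent.Y699
open H385 (ZI RQ im1 nrm)
open Pool.Agent.H304R2.EC.A1 (prim prim_mul prim_cancel prim_one prim_norm_odd prim_star eq_one_of_prim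
  norm_def' re_mul' im_mul' eq_of_dvd prim_ne_zero exists_prim)
open Pool.Agent.Y715.Z

/-- `π` is not a bad prime for `D`: it divides `D` or has `D` as a nonresidue -/
def Nr (D π : ZI) : Prop := π ∣ D ∨ ∀ x : ZI, ¬ π ∣ x ^ 2 - D

/-- the primes of `N` that divide `D` -/
noncomputable def OO (N D : ZI) : Finset {π : ZI // π ∈ PD N} :=
  Finset.univ.filter (fun π => π.1 ∣ D)

lemma mem_OO {N D : ZI} {i : {π : ZI // π ∈ PD N}} : i ∈ OO N D ↔ i.1 ∣ D := by
  unfold OO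
  rw [Finset.mem_filter]
  exact ⟨fun h => h.2, fun h => ⟨Finset.mem_univ _, h⟩⟩

lemma OO_map {N D : ZI} (hD : D ≠ 0) (hN : N ≠ 0) (h : D ∣ N) :
    OO N D = Finset.univ.map (incl hD hN h) := by
  ext i
  rw [mem_OO, Finset.mem_map]
  constructor
  · intro hi
    exact ⟨⟨i.1, (mem_PD hD).2 ⟨((mem_PD hN).1 i.2).1, hi⟩⟩, Finset.mem_univ _, Subtype.ext rfl⟩
  · rintro ⟨j, -, rfl⟩
    exact ((mem_PD hD).1 j.2).2

lemma OO_DD {N D : ZI} (h : PS D) (hN : N ≠ 0) (hd : D ∣ N) : DD (fam N) (OO N D) = D := by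
  unfold DD
  rw [OO_map h.ne hN hd, Finset.prod_map]
  exact h.DD

/-- the data of a good element -/
lemma dat_of {N D : ZI} (hg : Good4 D) (hN : N ≠ 0) (hd : D ∣ N)
    (hR : ∀ π ∈ PD N, Nr D π) : Dat (fam N) Finset.univ (OO N D) := by
  have hD := hg.ps.ne
  have hp := fam_PF hN
  refine ⟨hp, Finset.subset_univ _, ?_, ?_, ?_⟩
  · rw [OO_map hD hN hd, Finset.sum_map]
    exact wt_sum hg.ps hg.good.five
  · intro z hz
    rw [OO_map hD hN hd] at hz ⊢
    have h1 := ker_of_good hg.good (fun i => z (incl hD hN hd i)) (by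
      intro v _
      have h2 := hz (incl hD hN hd v) (Finset.mem_map_of_mem _ (Finset.mem_univ v))
      rw [Finset.sum_map] at h2
      exact h2)
    intro u hu v hv
    rw [Finset.mem_map] at hu hv
    obtain ⟨u', -, rfl⟩ := hu
    obtain ⟨v', -, rfl⟩ := hv
    exact h1 u' (Finset.mem_univ _) v' (Finset.mem_univ _)
  · intro i hi x
    rw [OO_DD hg.ps hN hd]
    have hiO : i ∉ OO N D := (Finset.mem_sdiff.1 hi).2
    rcases hR i.1 i.2 with h | h
    · exact absurd (mem_OO.2 h) hiO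
    · exact h x

/-- the data of the extension: `R` the elements whose fourth roots are adjoined -/
structure Quart (D : ZI) (R : Finset ZI) : Prop where
  good : ∀ J ⊆ R, Good4 (D * ∏ ρ ∈ J, ρ)
  one : ∀ ρ ∈ R, (8 : ZI) ∣ ρ - 1
  non : ∀ ρ ∈ R, ∀ π : ZI, Prime π → π ∣ ρ → ∀ J ⊆ R, Nr (D * ∏ ρ ∈ J, ρ) π

/-- the generators of degree two -/
def Quad (D : ZI) (R : Finset ZI) (δ : ZI) : Prop :=
  Squarefree δ ∧ (4 : ZI) ∣ δ - 1 ∧
    ∀ π : ZI, Prime π → π ∣ δ → ∀ J ⊆ R, Nr (D * ∏ ρ ∈ J, ρ) π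

lemma Quad.ps {D : ZI} {R : Finset ZI} {δ : ZI} (h : Quad D R δ) : PS δ :=
  ⟨(one_mod_four h.2.1).1, h.1⟩

lemma Quart.quad {D : ZI} {R : Finset ZI} (h : Quart D R) {ρ : ZI} (hρ : ρ ∈ R) : Quad D R ρ := by
  refine ⟨?_, ?_, h.non ρ hρ⟩
  · have h1 := (h.good {ρ} (Finset.singleton_subset_iff.2 hρ)).ps.sqf
    rw [Finset.prod_singleton] at h1
    exact h1.squarefree_of_dvd (dvd_mul_left _ _)
  · obtain ⟨k, hk⟩ := h.one ρ hρ
    exact ⟨2 * k, by rw [hk]; ring⟩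

lemma Quart.good0 {D : ZI} {R : Finset ZI} (h : Quart D R) : Good4 D := by
  have h1 := h.good ∅ (Finset.empty_subset _)
  rwa [Finset.prod_empty, mul_one] at h1

/-- the symmetric difference with the primes of one of the elements of `R` -/
lemma OO_symm {D N : ZI} {R : Finset ZI} (h : Quart D R) (hN : N ≠ 0) {ρ : ZI}
    (hρ : ρ ∈ R) {J : Finset ZI} (hJ : J ⊆ R) :
    ∃ J' ⊆ R, symmDiff (OO N (D * ∏ σ ∈ J, σ)) (OO N ρ) = OO N (D * ∏ σ ∈ J', σ) := by
  by_cases hρJ : ρ ∈ J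
  · refine ⟨J.erase ρ, (Finset.erase_subset _ _).trans hJ, ?_⟩
    have e1 : D * ∏ σ ∈ J, σ = ρ * (D * ∏ σ ∈ J.erase ρ, σ) := by
      rw [← Finset.mul_prod_erase J (fun σ => σ) hρJ]; ring
    have hsq : Squarefree (ρ * (D * ∏ σ ∈ J.erase ρ, σ)) := by
      rw [← e1]; exact (h.good J hJ).ps.sqf
    rw [e1]
    ext i
    have hiP := ((mem_PD hN).1 i.2).1.pr
    rw [Finset.mem_symmDiff, mem_OO, mem_OO, mem_OO]
    constructor
    · rintro (⟨h1, h2⟩ | ⟨h1, h2⟩)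
      · exact (hiP.dvd_or_dvd h1).resolve_left h2
      · exact absurd (h1.trans (dvd_mul_right _ _)) h2
    · intro h1
      left
      refine ⟨h1.trans (dvd_mul_left _ _), fun h2 => ?_⟩
      exact hiP.not_isUnit (hsq i.1 (mul_dvd_mul h2 h1))
  · refine ⟨insert ρ J, Finset.insert_subset hρ hJ, ?_⟩
    have e1 : D * ∏ σ ∈ insert ρ J, σ = ρ * (D * ∏ σ ∈ J, σ) := by
      rw [Finset.prod_insert hρJ]; ring
    have hsq : Squarefree (ρ * (D * ∏ σ ∈ J, σ)) := by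
      rw [← e1]; exact (h.good _ (Finset.insert_subset hρ hJ)).ps.sqf
    rw [e1]
    ext i
    have hiP := ((mem_PD hN).1 i.2).1.pr
    rw [Finset.mem_symmDiff, mem_OO, mem_OO, mem_OO]
    constructor
    · rintro (⟨h1, -⟩ | ⟨h1, -⟩)
      · exact h1.trans (dvd_mul_left _ _)
      · exact h1.trans (dvd_mul_right _ _)
    · intro h1
      rcases hiP.dvd_or_dvd h1 with h2 | h2
      · right
        exact ⟨h2, fun h3 => hiP.not_isUnit (hsq i.1 (mul_dvd_mul h2 h3))⟩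
      · left
        exact ⟨h2, fun h3 => hiP.not_isUnit (hsq i.1 (mul_dvd_mul h3 h2))⟩

/-- **the criterion over Kummer extensions of exponent four** -/
theorem crit_quart {D : ZI} {R : Finset ZI} (hR : Quart D R) {K : Type} [Field K] [NumberField K]
    (e : ZI ≃+* 𝓞 K) {F : Type} [Field F] [NumberField F] [Algebra K F] (T : Finset F)
    (hT : ∀ t ∈ T, (∃ δ : ZI, Quad D R δ ∧ t ^ 2 = algebraMap K F ((e δ : 𝓞 K) : K)) ∨
      ∃ ρ ∈ R, t ^ 4 = algebraMap K F ((e ρ : 𝓞 K) : K))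
    (htop : IntermediateField.adjoin K (T : Set F) = ⊤) :
    Con (algebraMap K F ((e D : 𝓞 K) : K)) := by
  -- the generators
  set Q : F → Prop := fun t => ∃ δ : ZI, Quad D R δ ∧ t ^ 2 = algebraMap K F ((e δ : 𝓞 K) : K)
    with hQ
  set T₂ : Finset F := T.filter Q ∪ (T.filter (fun t => ¬ Q t)).image (fun t => t ^ 2) with hT₂
  set T₄ : Finset F := (T.filter (fun t => ¬ Q t)) \ T₂ with hT₄
  have hT2 : ∀ t ∈ T₂, Q t := by
    intro t ht
    rw [hT₂, Finset.mem_union] at ht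
    rcases ht with ht | ht
    · exact (Finset.mem_filter.1 ht).2
    · obtain ⟨s, hs, rfl⟩ := Finset.mem_image.1 ht
      obtain ⟨hs1, hs2⟩ := Finset.mem_filter.1 hs
      obtain ⟨ρ, hρ, h4⟩ := (hT s hs1).resolve_left hs2
      refine ⟨ρ, hR.quad hρ, ?_⟩
      rw [← h4]
      ring
  have hT4 : ∀ t ∈ T₄, t ^ 2 ∈ T₂ ∧ ∃ ρ ∈ R, t ^ 4 = algebraMap K F ((e ρ : 𝓞 K) : K) := by
    intro t ht
    have ht1 := (Finset.mem_sdiff.1 ht).1
    obtain ⟨hs1, hs2⟩ := Finset.mem_filter.1 ht1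
    refine ⟨?_, (hT t hs1).resolve_left hs2⟩
    rw [hT₂, Finset.mem_union]
    exact Or.inr (Finset.mem_image_of_mem _ ht1)
  have hdis : Disjoint T₂ T₄ := Finset.disjoint_sdiff
  have htop' : IntermediateField.adjoin K ((T₂ ∪ T₄ : Finset F) : Set F) = ⊤ := by
    rw [eq_top_iff, ← htop, IntermediateField.adjoin_le_iff]
    intro t ht
    refine IntermediateField.subset_adjoin K _ ?_
    rw [Finset.mem_coe, Finset.mem_union]
    have ht' := Finset.mem_coe.1 ht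
    by_cases hq : Q t
    · left
      rw [hT₂, Finset.mem_union]
      exact Or.inl (Finset.mem_filter.2 ⟨ht', hq⟩)
    · by_cases h2 : t ∈ T₂
      · exact Or.inl h2
      · right
        rw [hT₄, Finset.mem_sdiff]
        exact ⟨Finset.mem_filter.2 ⟨ht', hq⟩, h2⟩
  choose! f hf1 hf2 using hT2
  choose! g hg1 hg2 using (fun t ht => (hT4 t ht).2)
  have hg0 := hR.good0
  have hD := hg0.ps.ne
  set N : ZI := (D * ∏ ρ ∈ R, ρ) * ∏ t ∈ T₂, f t with hNdef
  have hDR : D * ∏ ρ ∈ R, ρ ≠ 0 := (hR.good R (Finset.Subset.refl _)).ps.ne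
  have hN : N ≠ 0 := mul_ne_zero hDR (Finset.prod_ne_zero_iff.2 fun t ht => (hf1 t ht).ps.ne)
  have hp := fam_PF hN
  have hJN : ∀ J ⊆ R, (D * ∏ ρ ∈ J, ρ) ∣ N := fun J hJ =>
    (mul_dvd_mul_left D (Finset.prod_dvd_prod_of_subset _ _ _ hJ)).trans (dvd_mul_right _ _)
  set 𝒪 : Set (Finset {π : ZI // π ∈ PD N}) := {O | ∃ J ⊆ R, O = OO N (D * ∏ ρ ∈ J, ρ)} with h𝒪
  have H : ∀ O ∈ 𝒪, Dat (fam N) Finset.univ O := by
    rintro O ⟨J, hJ, rfl⟩
    refine dat_of (hR.good J hJ) hN (hJN J hJ) ?_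
    intro π hπ
    obtain ⟨hπ1, hπ2⟩ := (mem_PD hN).1 hπ
    rcases hπ1.pr.dvd_or_dvd hπ2 with h1 | h1
    · rcases hπ1.pr.dvd_or_dvd h1 with h2 | h2
      · exact Or.inl (h2.trans (dvd_mul_right _ _))
      · obtain ⟨ρ, hρ, h3⟩ := (hπ1.pr.dvd_finsetProd_iff _).1 h2
        exact hR.non ρ hρ π hπ1.pr h3 J hJ
    · obtain ⟨t, ht, h3⟩ := (hπ1.pr.dvd_finsetProd_iff _).1 h1
      exact (hf1 t ht).2.2 π hπ1.pr h3 J hJ
  have hG := towerQ (pr := fam N) e (V := Finset.univ) hp H (T₂ ∪ T₄).card F T₂ T₄ rfl (by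
      intro t ht
      obtain ⟨h4, h5⟩ := one_mod_four (hf1 t ht).2.1
      have h6 : f t ∣ N := (Finset.dvd_prod_of_mem f ht).trans (dvd_mul_left _ _)
      refine ⟨OO N (f t), Finset.subset_univ _, ?_, ?_⟩
      · rw [OO_DD (hf1 t ht).ps hN h6]; exact h5
      · rw [OO_DD (hf1 t ht).ps hN h6]; exact hf2 t ht) (by
      intro t ht
      have hρ := hg1 t ht
      have h7 := hR.quad hρ
      have h6 : g t ∣ N := ((Finset.dvd_prod_of_mem (fun x => x) hρ).trans (dvd_mul_left _ _)).trans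
        (dvd_mul_right _ _)
      refine ⟨(hT4 t ht).1, OO N (g t), Finset.subset_univ _, ?_, ?_, ?_⟩
      · rw [OO_DD h7.ps hN h6]
        obtain ⟨k, hk⟩ := hR.one _ hρ
        exact ⟨k, by linear_combination hk⟩
      · rintro O ⟨J, hJ, rfl⟩
        obtain ⟨J', hJ', e1⟩ := OO_symm hR hN hρ hJ
        exact ⟨J', hJ', e1⟩
      · rw [OO_DD h7.ps hN h6]; exact hg2 t ht) hdis htop'
  set O := OO N D with hO
  have hDN : D ∣ N := by
    have := hJN ∅ (Finset.empty_subset _)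
    rwa [Finset.prod_empty, mul_one] at this
  have hOO : O ∈ 𝒪 := ⟨∅, Finset.empty_subset _, by rw [Finset.prod_empty, mul_one]⟩
  have hDD : DD (fam N) O = D := OO_DD hg0.ps hN hDN
  set ex : {π : ZI // π ∈ PD N} → ℕ := fun i => if i ∈ O then 1 else 0 with hex
  have hA : Adm (fam N) Finset.univ O ex := by
    constructor
    · intro i _
      rw [hex]
      by_cases h : i ∈ O
      · simp [h]
      · simp [h]
    · unfold Wt
      have h1 : ∑ i, ex i * wq (fam N i) = ∑ i ∈ O, wq (fam N i) := by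
        rw [hex]
        simp only [ite_mul, one_mul, zero_mul]
        rw [Finset.sum_ite_mem, Finset.univ_inter]
      rw [h1, hO, OO_map hD hN hDN, Finset.sum_map]
      exact sum_wq hg0
  have h6 := hG.2 O hOO ex hA
  have hDE : DE (fam N) Finset.univ ex = D := by
    rw [← hDD]
    unfold DE DD
    rw [hex]
    simp only [pow_ite, pow_one, pow_zero]
    rw [Finset.prod_ite_mem, Finset.univ_inter]
  rw [hDE] at h6
  exact h6

end Pool.Agent.L7h3.QE
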