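import Pool.Agent.L7h3.MR.Ir

/-!
# Towers with fourth roots: the steps
-/

set_option autoImplicit false
set_option linter.unusedSectionVars false

open NumberField IsDedekindDomain

namespace Pool.Agent.L7h3.QE

open scoped Classical
open WithZero
open Pool.Agent.L7h3.MQ
open Pool.Agent.L7h3.MR
open Pool.Agent.Y699
open Pool.Agent.H921R2.TatePole (nm two_le_nm below)
open H385 (ZI RQ im1 nrm)
open Pool.Agent.H304R2.EC.A1 (prim prim_mul prim_cancel prim_one prim_norm_odd prim_star eq_one_of_prim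
  norm_def' re_mul' im_mul' eq_of_dvd prim_ne_zero exists_prim)
open Pool.Agent.Y715.Z

variable {ι : Type} [DecidableEq ι] {pr : ι → ZI}

/-- an integer with given trace and norm -/
lemma int_quad {A : Type} [CommRing A] {B : Type} [Field B] [CharZero B] [Algebra A B] (x : B)
    (a b : A) (ha : IsIntegral ℤ a) (hb : IsIntegral ℤ b)
    (h : x ^ 2 = algebraMap A B a * x - algebraMap A B b) : IsIntegral ℤ x := by
  have h1 : IsIntegral (integralClosure ℤ B) x := by
    refine ⟨Polynomial.X ^ 2 + (Polynomial.C (⟨-(algebraMap A B a), (ha.map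
      (algebraMap A B : A →+* B).toIntAlgHom).neg⟩ : integralClosure ℤ B) * Polynomial.X +
      Polynomial.C (⟨algebraMap A B b, hb.map (algebraMap A B : A →+* B).toIntAlgHom⟩ :
        integralClosure ℤ B)), ?_, ?_⟩
    · refine Polynomial.monic_X_pow_add ?_
      refine lt_of_le_of_lt (Polynomial.degree_linear_le) ?_
      norm_num
    · simp only [Polynomial.eval₂_add, Polynomial.eval₂_pow, Polynomial.eval₂_X,
        Polynomial.eval₂_mul, Polynomial.eval₂_C]
      show x ^ 2 + (-(algebraMap A B a) * x + algebraMap A B b) = 0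
      rw [h]
      ring
  exact isIntegral_trans x h1

section step

variable {F F' : Type} [Field F] [NumberField F] [Field F'] [NumberField F'] [Algebra F F']

/-- two is not ramified in `F(√u)`, `u² ≡ 1 mod 8` -/
theorem two_step4 (H : Two F) {I : 𝓞 F} (hI : I ^ 2 = -1) {u k : 𝓞 F} (hu : u ^ 2 = 1 + 8 * k)
    (h2 : Module.finrank F F' = 2) (σ : F' ≃ₐ[F] F') {θ : 𝓞 F'}
    (hθ : θ ^ 2 = algebraMap (𝓞 F) (𝓞 F') u) (hσ : σ (θ : F') = -(θ : F')) :
    Two F' := by
  -- `u = 1 + 2 w`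
  have hwint : IsIntegral ℤ (((u : F) - 1) / 2) := by
    refine int_quad (A := 𝓞 F) (B := F) _ (-1) (-(2 * k)) ?_ ?_ ?_
    · exact isIntegral_one.neg
    · exact (RingOfIntegers.isIntegral _)
    · have h1 : (u : F) ^ 2 = 1 + 8 * (k : F) := by
        have h2 : ((u ^ 2 : 𝓞 F) : F) = ((1 + 8 * k : 𝓞 F) : F) := by rw [hu]
        exact h2
      have e1 : algebraMap (𝓞 F) F (-1) = -1 := by simp
      have e2 : algebraMap (𝓞 F) F (-(2 * k)) = -(2 * (k : F)) := by
        rw [map_neg, map_mul, map_ofNat]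
      rw [e1, e2]
      linear_combination h1 / 4
  let w : 𝓞 F := ⟨((u : F) - 1) / 2, hwint⟩
  have huw : u = 1 + 2 * w := by
    apply RingOfIntegers.ext
    show (u : F) = 1 + 2 * (((u : F) - 1) / 2)
    ring
  have hww : w * (w + 1) = 2 * k := by
    have h1 : (1 + 2 * w) ^ 2 = 1 + 8 * k := by rw [← huw, hu]
    have h4 : (4 : 𝓞 F) * (w * (w + 1)) = 4 * (2 * k) := by linear_combination h1
    exact mul_left_cancel₀ (by norm_num) h4
  set g : 𝓞 F →+* 𝓞 F' := algebraMap (𝓞 F) (𝓞 F') with hg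
  have hgc : ∀ a : 𝓞 F, ((g a : 𝓞 F') : F') = algebraMap F F' (a : F) := fun a => rfl
  have hσg : ∀ a : 𝓞 F, σ ((g a : 𝓞 F') : F') = ((g a : 𝓞 F') : F') := by
    intro a
    rw [hgc, σ.commutes]
  have hθ2 : (θ : F') ^ 2 = 1 + 2 * ((g w : 𝓞 F') : F') := by
    have h5 : ((θ ^ 2 : 𝓞 F') : F') = ((g u : 𝓞 F') : F') := by rw [hθ]
    rw [huw] at h5
    have h6 : g (1 + 2 * w) = 1 + 2 * g w := by rw [map_add, map_mul, map_one, map_ofNat]
    rw [h6] at h5
    exact h5
  have hww' : ((g w : 𝓞 F') : F') * (((g w : 𝓞 F') : F') + 1) = 2 * ((g k : 𝓞 F') : F') := by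
    have h5 : ((g (w * (w + 1)) : 𝓞 F') : F') = ((g (2 * k) : 𝓞 F') : F') := by rw [hww]
    rw [map_mul, map_add, map_one, map_mul, map_ofNat] at h5
    exact h5
  have hI' : ((g I : 𝓞 F') : F') ^ 2 = -1 := by
    have h5 : ((g (I ^ 2) : 𝓞 F') : F') = ((g (-1) : 𝓞 F') : F') := by rw [hI]
    rw [map_pow, map_neg, map_one] at h5
    exact h5
  -- the two integers
  have hint1 : IsIntegral ℤ ((((g w : 𝓞 F') : F') + 1) * (1 + (θ : F')) / 2) := by
    refine int_quad (A := 𝓞 F') (B := F') _ (g w + 1) (-(g k * (g w + 1))) ?_ ?_ ?_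
    · exact (RingOfIntegers.isIntegral _)
    · exact (RingOfIntegers.isIntegral _)
    · have e1 : algebraMap (𝓞 F') F' (g w + 1) = ((g w : 𝓞 F') : F') + 1 := by rw [map_add, map_one]
      have e2 : algebraMap (𝓞 F') F' (-(g k * (g w + 1))) =
          -(((g k : 𝓞 F') : F') * (((g w : 𝓞 F') : F') + 1)) := by
        rw [map_neg, map_mul, map_add, map_one]
      rw [e1, e2]
      linear_combination ((((g w : 𝓞 F') : F') + 1) ^ 2 / 4) * hθ2 +
        ((((g w : 𝓞 F') : F') + 1) / 2) * hww'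
  have hint2 : IsIntegral ℤ (((g w : 𝓞 F') : F') * (1 + ((g I : 𝓞 F') : F') * (θ : F')) / 2) := by
    refine int_quad (A := 𝓞 F') (B := F') _ (g w) (g k * g w) ?_ ?_ ?_
    · exact (RingOfIntegers.isIntegral _)
    · exact (RingOfIntegers.isIntegral _)
    · have e1 : algebraMap (𝓞 F') F' (g w) = ((g w : 𝓞 F') : F') := rfl
      have e2 : algebraMap (𝓞 F') F' (g k * g w) = ((g k : 𝓞 F') : F') * ((g w : 𝓞 F') : F') := by
        rw [map_mul]
      rw [e1, e2]
      linear_combination (((g w : 𝓞 F') : F') ^ 2 * ((g I : 𝓞 F') : F') ^ 2 / 4) * hθ2 +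
        (((g w : 𝓞 F') : F') ^ 2 * (1 + 2 * ((g w : 𝓞 F') : F')) / 4) * hI' -
        (((g w : 𝓞 F') : F') / 2) * hww'
  intro v hv
  have hP : (2 : 𝓞 F) ∈ (und (F := F) v).asIdeal := by
    rw [mem_und, map_ofNat]; exact hv
  have h3 := H _ hP
  -- `θ` is a unit at `v`
  have hθv : θ ∉ v.asIdeal := by
    intro h
    have h5 : θ ^ 2 ∈ v.asIdeal := Ideal.pow_mem_of_mem _ h 2 (by norm_num)
    rw [hθ, huw, map_add, map_mul, map_one, map_ofNat] at h5
    have h7 := v.asIdeal.sub_mem h5 (v.asIdeal.mul_mem_right (g w) hv)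
    rw [add_sub_cancel_right] at h7
    exact v.isPrime.ne_top ((Ideal.eq_top_iff_one _).2 h7)
  have hIv : g I ∉ v.asIdeal := by
    intro h
    have h5 : (g I) ^ 2 ∈ v.asIdeal := Ideal.pow_mem_of_mem _ h 2 (by norm_num)
    rw [← map_pow, hI, map_neg, map_one, neg_mem_iff] at h5
    exact v.isPrime.ne_top ((Ideal.eq_top_iff_one _).2 h5)
  have hun : ee (und (F := F) v) v = 1 := by
    by_cases hw : g w ∈ v.asIdeal
    · -- `w + 1` is a unit
      have hw1 : g w + 1 ∉ v.asIdeal := by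
        intro h
        have h7 := v.asIdeal.sub_mem h hw
        rw [add_sub_cancel_left] at h7
        exact v.isPrime.ne_top ((Ideal.eq_top_iff_one _).2 h7)
      let x : 𝓞 F' := ⟨(((g w : 𝓞 F') : F') + 1) * (1 + (θ : F')) / 2, hint1⟩
      have hx : intAut σ x - x = -((g w + 1) * θ) := by
        apply RingOfIntegers.ext
        have h5 : ((intAut σ x - x : 𝓞 F') : F') =
            σ ((((g w : 𝓞 F') : F') + 1) * (1 + (θ : F')) / 2) -
            (((g w : 𝓞 F') : F') + 1) * (1 + (θ : F')) / 2 := rfl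
        rw [h5, map_div₀, map_mul, map_add, map_add, map_one, hσ, hσg, map_ofNat]
        show _ = -((((g w : 𝓞 F') : F') + 1) * (θ : F'))
        ring
      refine unram_of h2 σ rfl (x := x) ?_
      rw [hx, neg_mem_iff]
      intro h
      rcases v.isPrime.mem_or_mem h with h | h
      · exact hw1 h
      · exact hθv h
    · let x : 𝓞 F' := ⟨((g w : 𝓞 F') : F') * (1 + ((g I : 𝓞 F') : F') * (θ : F')) / 2, hint2⟩
      have hx : intAut σ x - x = -(g w * (g I * θ)) := by
        apply RingOfIntegers.ext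
        have h5 : ((intAut σ x - x : 𝓞 F') : F') =
            σ (((g w : 𝓞 F') : F') * (1 + ((g I : 𝓞 F') : F') * (θ : F')) / 2) -
            ((g w : 𝓞 F') : F') * (1 + ((g I : 𝓞 F') : F') * (θ : F')) / 2 := rfl
        rw [h5, map_div₀, map_mul, map_add, map_mul, map_one, hσ, hσg, hσg, map_ofNat]
        show _ = -(((g w : 𝓞 F') : F') * (((g I : 𝓞 F') : F') * (θ : F')))
        ring
      refine unram_of h2 σ rfl (x := x) ?_
      rw [hx, neg_mem_iff]
      intro h
      rcases v.isPrime.mem_or_mem h with h | h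
      · exact hw h
      · rcases v.isPrime.mem_or_mem h with h | h
        · exact hIv h
        · exact hθv h
  have h5 := val_und (F := F) (v := v) rfl 2
  rw [hun, pow_one, h3, map_ofNat] at h5
  exact h5

end step

end Pool.Agent.L7h3.QE
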